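import Mathlib

/-!
# Type semigroups of invariant algebras of sets

A group `G` acts on a set `X` and `𝒜` is a `G`-invariant subalgebra of the power set of `X`.
We define equidecomposability in `𝒜` for the sets in `𝒜*` and the type semigroup.
-/

set_option autoImplicit false

open Set

namespace Pool.Agent.TH26.Canc

/-- A `G`-invariant subalgebra of the power set of `X`. -/
structure InvAlg (G X : Type) [Group G] [MulAction G X] where
  /-- the members of the algebra -/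
  sets : Set (Set X)
  empty_mem : ∅ ∈ sets
  univ_mem : Set.univ ∈ sets
  union_mem : ∀ A ∈ sets, ∀ B ∈ sets, A ∪ B ∈ sets
  inter_mem : ∀ A ∈ sets, ∀ B ∈ sets, A ∩ B ∈ sets
  compl_mem : ∀ A ∈ sets, Aᶜ ∈ sets
  smul_mem : ∀ g : G, ∀ A ∈ sets, (fun x => g • x) '' A ∈ sets

variable {G X : Type} [Group G] [MulAction G X]

/-- The family `𝒜*` of the sets `⋃ m < n, A m × {m}` with every `A m` in `𝒜`. -/
def InvAlg.star (𝒜 : InvAlg G X) : Set (Set (X × ℕ)) :=
  {S | ∃ (n : ℕ) (A : ℕ → Set X), (∀ m < n, A m ∈ 𝒜.sets) ∧ S = ⋃ m < n, A m ×ˢ {m}}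

/-- The action of `G* = G × Sym(ℕ)` on `X* = X × ℕ`. -/
def act (h : G × Equiv.Perm ℕ) (p : X × ℕ) : X × ℕ := (h.1 • p.1, h.2 p.2)

/-- Equidecomposability in `𝒜`: there are a partition of `A` into finitely many sets
`P i ∈ 𝒜*` and elements `h i ∈ G*` such that the sets `h i (P i)` partition `B`. -/
def InvAlg.Equidec (𝒜 : InvAlg G X) (A B : Set (X × ℕ)) : Prop :=
  ∃ (k : ℕ) (P : Fin k → Set (X × ℕ)) (h : Fin k → G × Equiv.Perm ℕ),
    (∀ i, P i ∈ 𝒜.star) ∧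
    (Pairwise fun i j => Disjoint (P i) (P j)) ∧ (⋃ i, P i) = A ∧
    (Pairwise fun i j => Disjoint (act (h i) '' P i) (act (h j) '' P j)) ∧
    (⋃ i, act (h i) '' P i) = B

/-! ### Basic facts -/

theorem mem_star_iff (𝒜 : InvAlg G X) (S : Set (X × ℕ)) :
    S ∈ 𝒜.star ↔ (∀ m, {x | (x, m) ∈ S} ∈ 𝒜.sets) ∧ ∃ n, ∀ p ∈ S, p.2 < n := by
  constructor
  · rintro ⟨n, A, hA, rfl⟩
    refine ⟨fun m => ?_, n, ?_⟩
    · by_cases hm : m < n
      · have : {x | (x, m) ∈ ⋃ m < n, A m ×ˢ ({m} : Set ℕ)} = A m := by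
          ext x
          simp only [mem_iUnion, mem_prod, mem_singleton_iff, mem_ofPred_eq, exists_prop]
          constructor
          · rintro ⟨i, hi, hx, rfl⟩
            exact hx
          · intro hx
            exact ⟨m, hm, hx, rfl⟩
        rw [this]
        exact hA m hm
      · have : {x | (x, m) ∈ ⋃ m < n, A m ×ˢ ({m} : Set ℕ)} = ∅ := by
          ext x
          simp only [mem_iUnion, mem_prod, mem_singleton_iff, mem_ofPred_eq, exists_prop,
            mem_empty_iff_false, iff_false]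
          rintro ⟨i, hi, hx, rfl⟩
          exact hm hi
        rw [this]
        exact 𝒜.empty_mem
    · rintro ⟨x, m⟩ hp
      simp only [mem_iUnion, mem_prod, mem_singleton_iff, exists_prop] at hp
      obtain ⟨i, hi, hx, rfl⟩ := hp
      exact hi
  · rintro ⟨h1, n, hn⟩
    refine ⟨n, fun m => {x | (x, m) ∈ S}, fun m _ => h1 m, ?_⟩
    ext ⟨x, m⟩
    simp only [mem_iUnion, mem_prod, mem_singleton_iff, mem_ofPred_eq, exists_prop]
    constructor
    · intro h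
      exact ⟨m, hn _ h, h, rfl⟩
    · rintro ⟨i, hi, hx, rfl⟩
      exact hx

theorem star_empty (𝒜 : InvAlg G X) : ∅ ∈ 𝒜.star := by
  rw [mem_star_iff]
  refine ⟨fun m => ?_, 0, by simp⟩
  simpa using 𝒜.empty_mem

theorem star_union (𝒜 : InvAlg G X) {S T : Set (X × ℕ)} (hS : S ∈ 𝒜.star) (hT : T ∈ 𝒜.star) :
    S ∪ T ∈ 𝒜.star := by
  rw [mem_star_iff] at *
  obtain ⟨h1, n, hn⟩ := hS
  obtain ⟨h2, k, hk⟩ := hT
  refine ⟨fun m => 𝒜.union_mem _ (h1 m) _ (h2 m), max n k, ?_⟩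
  rintro p (hp | hp)
  · exact lt_max_of_lt_left (hn p hp)
  · exact lt_max_of_lt_right (hk p hp)

theorem star_inter (𝒜 : InvAlg G X) {S T : Set (X × ℕ)} (hS : S ∈ 𝒜.star) (hT : T ∈ 𝒜.star) :
    S ∩ T ∈ 𝒜.star := by
  rw [mem_star_iff] at *
  obtain ⟨h1, n, hn⟩ := hS
  obtain ⟨h2, k, hk⟩ := hT
  exact ⟨fun m => 𝒜.inter_mem _ (h1 m) _ (h2 m), n, fun p hp => hn p hp.1⟩

/-- The inverse in `G*`. -/
def inv' (h : G × Equiv.Perm ℕ) : G × Equiv.Perm ℕ := (h.1⁻¹, h.2⁻¹)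

theorem act_inv_act (h : G × Equiv.Perm ℕ) (p : X × ℕ) : act (inv' h) (act h p) = p := by
  simp [act, inv']

theorem act_act_inv (h : G × Equiv.Perm ℕ) (p : X × ℕ) : act h (act (inv' h) p) = p := by
  simp [act, inv']

theorem act_injective (h : G × Equiv.Perm ℕ) : Function.Injective (act h : X × ℕ → X × ℕ) :=
  fun p q hpq => by rw [← act_inv_act h p, hpq, act_inv_act]

theorem act_mul (g h : G × Equiv.Perm ℕ) (p : X × ℕ) : act g (act h p) = act (g * h) p := by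
  simp [act, mul_smul]

theorem image_act_eq_preimage (h : G × Equiv.Perm ℕ) (S : Set (X × ℕ)) :
    act h '' S = act (inv' h) ⁻¹' S := by
  ext p
  constructor
  · rintro ⟨q, hq, rfl⟩
    simpa [act_inv_act] using hq
  · intro hp
    exact ⟨_, hp, act_act_inv h p⟩

theorem star_act (𝒜 : InvAlg G X) {S : Set (X × ℕ)} (hS : S ∈ 𝒜.star) (h : G × Equiv.Perm ℕ) :
    act h '' S ∈ 𝒜.star := by
  rw [mem_star_iff] at *
  obtain ⟨h1, n, hn⟩ := hS
  refine ⟨fun m => ?_, ?_⟩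
  · have : {x | (x, m) ∈ act h '' S} = (fun x => h.1 • x) '' {x | (x, h.2⁻¹ m) ∈ S} := by
      ext x
      simp only [mem_ofPred_eq, mem_image, Prod.exists]
      constructor
      · rintro ⟨y, k, hy, he⟩
        simp only [act, Prod.mk.injEq] at he
        obtain ⟨rfl, rfl⟩ := he
        exact ⟨y, by simpa using hy, rfl⟩
      · rintro ⟨y, hy, rfl⟩
        exact ⟨y, h.2⁻¹ m, hy, by simp [act]⟩
    rw [this]
    exact 𝒜.smul_mem _ _ (h1 _)
  · refine ⟨((Finset.range n).sup fun m => h.2 m) + 1, ?_⟩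
    rintro _ ⟨q, hq, rfl⟩
    have := hn q hq
    exact Nat.lt_succ_of_le (Finset.le_sup (f := fun m => h.2 m) (Finset.mem_range.2 this))

/-- Equidecomposability with pieces indexed by any finite type. -/
theorem equidec_of_fintype (𝒜 : InvAlg G X) {ι : Type} [Finite ι] {A B : Set (X × ℕ)}
    (P : ι → Set (X × ℕ)) (h : ι → G × Equiv.Perm ℕ) (hP : ∀ i, P i ∈ 𝒜.star)
    (hd : Pairwise fun i j => Disjoint (P i) (P j)) (hA : (⋃ i, P i) = A)
    (hd' : Pairwise fun i j => Disjoint (act (h i) '' P i) (act (h j) '' P j))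
    (hB : (⋃ i, act (h i) '' P i) = B) : 𝒜.Equidec A B := by
  obtain ⟨k, ⟨e⟩⟩ := Finite.exists_equiv_fin ι
  refine ⟨k, fun i => P (e.symm i), fun i => h (e.symm i), fun i => hP _, ?_, ?_, ?_, ?_⟩
  · intro i j hij
    exact hd (fun h => hij (e.symm.injective h))
  · rw [← hA]
    exact e.symm.surjective.iUnion_comp P
  · intro i j hij
    exact hd' (fun h => hij (e.symm.injective h))
  · rw [← hB]
    exact e.symm.surjective.iUnion_comp (fun i => act (h i) '' P i)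

theorem Equidec.refl (𝒜 : InvAlg G X) {A : Set (X × ℕ)} (hA : A ∈ 𝒜.star) : 𝒜.Equidec A A := by
  refine equidec_of_fintype 𝒜 (ι := Unit) (fun _ => A) (fun _ => 1) (fun _ => hA) ?_ ?_ ?_ ?_
  · intro i j hij; exact absurd (Subsingleton.elim i j) hij
  · exact iUnion_const A
  · intro i j hij; exact absurd (Subsingleton.elim i j) hij
  · have h1 : (act (1 : G × Equiv.Perm ℕ) : X × ℕ → X × ℕ) = id := by
      funext p; simp [act]
    rw [h1]
    exact (iUnion_const _).trans (image_id A)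

theorem Equidec.symm (𝒜 : InvAlg G X) {A B : Set (X × ℕ)} (hAB : 𝒜.Equidec A B) :
    𝒜.Equidec B A := by
  obtain ⟨k, P, h, hP, hd, hA, hd', hB⟩ := hAB
  have key : ∀ i, act (inv' (h i)) '' (act (h i) '' P i) = P i := by
    intro i
    rw [← image_comp]
    have : (act (inv' (h i)) ∘ act (h i) : X × ℕ → X × ℕ) = id := by
      funext p; exact act_inv_act _ p
    rw [this, image_id]
  refine ⟨k, fun i => act (h i) '' P i, fun i => inv' (h i), fun i => star_act 𝒜 (hP i) _,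
    hd', hB, ?_, ?_⟩
  · intro i j hij
    show Disjoint (act (inv' (h i)) '' (act (h i) '' P i)) (act (inv' (h j)) '' (act (h j) '' P j))
    rw [key, key]
    exact hd hij
  · rw [← hA]
    exact iUnion_congr key

theorem Equidec.trans (𝒜 : InvAlg G X) {A B C : Set (X × ℕ)} (hAB : 𝒜.Equidec A B)
    (hBC : 𝒜.Equidec B C) : 𝒜.Equidec A C := by
  obtain ⟨k, P, h, hP, hd, hA, hd', hB⟩ := hAB
  obtain ⟨l, Q, g, hQ, he, hB', he', hC⟩ := hBC
  have hpre : ∀ i j, act (h i) ⁻¹' Q j ∈ 𝒜.star := by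
    intro i j
    have := star_act 𝒜 (hQ j) (inv' (h i))
    rw [image_act_eq_preimage] at this
    have e : inv' (inv' (h i)) = h i := by simp [inv']
    rwa [e] at this
  refine equidec_of_fintype 𝒜 (ι := Fin k × Fin l)
    (fun ij => P ij.1 ∩ act (h ij.1) ⁻¹' Q ij.2) (fun ij => g ij.2 * h ij.1)
    (fun ij => star_inter 𝒜 (hP _) (hpre _ _)) ?_ ?_ ?_ ?_
  · rintro ⟨i, j⟩ ⟨i', j'⟩ hne
    rw [Set.disjoint_left]
    rintro p ⟨hp1, hp2⟩ ⟨hp3, hp4⟩
    by_cases hi : i = i'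
    · subst hi
      have hj : j ≠ j' := fun h => hne (by rw [h])
      exact Set.disjoint_left.1 (he hj) hp2 hp4
    · exact Set.disjoint_left.1 (hd hi) hp1 hp3
  · rw [← hA]
    ext p
    simp only [mem_iUnion, mem_inter_iff, mem_preimage, Prod.exists]
    constructor
    · rintro ⟨i, j, hp, _⟩
      exact ⟨i, hp⟩
    · rintro ⟨i, hp⟩
      have : act (h i) p ∈ ⋃ j, Q j := by
        rw [hB', ← hB]
        exact mem_iUnion.2 ⟨i, p, hp, rfl⟩
      obtain ⟨j, hj⟩ := mem_iUnion.1 this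
      exact ⟨i, j, hp, hj⟩
  · rintro ⟨i, j⟩ ⟨i', j'⟩ hne
    rw [Set.disjoint_left]
    rintro q ⟨p, ⟨hp1, hp2⟩, rfl⟩ ⟨p', ⟨hp3, hp4⟩, hq⟩
    simp only [← act_mul] at hq
    by_cases hj : j = j'
    · subst hj
      have hi : i ≠ i' := fun h => hne (by rw [h])
      have := act_injective _ hq
      exact Set.disjoint_left.1 (hd' hi) ⟨p, hp1, rfl⟩ ⟨p', hp3, this⟩
    · exact Set.disjoint_left.1 (he' hj) ⟨_, hp2, rfl⟩ ⟨_, hp4, hq⟩
  · rw [← hC]
    ext q
    simp only [mem_iUnion]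
    constructor
    · rintro ⟨⟨i, j⟩, p, ⟨hp1, hp2⟩, rfl⟩
      exact ⟨j, _, hp2, act_mul _ _ _⟩
    · rintro ⟨j, p, hp, rfl⟩
      have : p ∈ ⋃ i, act (h i) '' P i := by
        rw [hB, ← hB']
        exact mem_iUnion.2 ⟨j, hp⟩
      obtain ⟨i, p', hp', rfl⟩ := mem_iUnion.1 this
      exact ⟨(i, j), p', ⟨hp', hp⟩, (act_mul _ _ _).symm⟩

/-- Equidecomposability of disjoint unions. -/
theorem Equidec.union (𝒜 : InvAlg G X) {A A' B B' : Set (X × ℕ)} (hA : 𝒜.Equidec A A')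
    (hB : 𝒜.Equidec B B') (hd : Disjoint A B) (hd' : Disjoint A' B') :
    𝒜.Equidec (A ∪ B) (A' ∪ B') := by
  obtain ⟨k, P, h, hP, hPd, rfl, hPd', rfl⟩ := hA
  obtain ⟨l, Q, g, hQ, hQd, rfl, hQd', rfl⟩ := hB
  refine equidec_of_fintype 𝒜 (ι := Fin k ⊕ Fin l) (Sum.elim P Q) (Sum.elim h g) ?_ ?_ ?_ ?_ ?_
  · rintro (i | i)
    · exact hP i
    · exact hQ i
  · rintro (i | i) (j | j) hij
    · exact hPd (fun h => hij (by rw [h]))
    · exact hd.mono (subset_iUnion P i) (subset_iUnion Q j)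
    · exact (hd.mono (subset_iUnion P j) (subset_iUnion Q i)).symm
    · exact hQd (fun h => hij (by rw [h]))
  · rw [iUnion_sum]; rfl
  · rintro (i | i) (j | j) hij
    · exact hPd' (fun h => hij (by rw [h]))
    · exact hd'.mono (subset_iUnion (fun i => act (h i) '' P i) i)
        (subset_iUnion (fun i => act (g i) '' Q i) j)
    · exact (hd'.mono (subset_iUnion (fun i => act (h i) '' P i) j)
        (subset_iUnion (fun i => act (g i) '' Q i) i)).symm
    · exact hQd' (fun h => hij (by rw [h]))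
  · rw [iUnion_sum]; rfl

/-- `B` with all levels shifted upward by `n`. -/
def shift (n : ℕ) (B : Set (X × ℕ)) : Set (X × ℕ) := {p | n ≤ p.2 ∧ (p.1, p.2 - n) ∈ B}

theorem star_shift (𝒜 : InvAlg G X) {B : Set (X × ℕ)} (hB : B ∈ 𝒜.star) (n : ℕ) :
    shift n B ∈ 𝒜.star := by
  rw [mem_star_iff] at *
  obtain ⟨h1, k, hk⟩ := hB
  refine ⟨fun m => ?_, n + k, ?_⟩
  · by_cases hm : n ≤ m
    · have : {x | (x, m) ∈ shift n B} = {x | (x, m - n) ∈ B} := by
        ext x; simp [shift, hm]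
      rw [this]
      exact h1 _
    · have : {x | (x, m) ∈ shift n B} = ∅ := by
        ext x; simp [shift, hm]
      rw [this]
      exact 𝒜.empty_mem
  · rintro ⟨x, m⟩ ⟨h2, h3⟩
    have := hk _ h3
    simp only at *
    omega

theorem equidec_shift (𝒜 : InvAlg G X) {B : Set (X × ℕ)} (hB : B ∈ 𝒜.star) (n : ℕ) :
    𝒜.Equidec B (shift n B) := by
  obtain ⟨h1, k, hk⟩ := (mem_star_iff 𝒜 B).1 hB
  refine equidec_of_fintype 𝒜 (ι := Fin k) (fun m => B ∩ {p | p.2 = m})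
    (fun m => (1, Equiv.swap (m : ℕ) (m + n))) ?_ ?_ ?_ ?_ ?_
  · intro m
    rw [mem_star_iff]
    refine ⟨fun j => ?_, k, fun p hp => hk p hp.1⟩
    by_cases hj : j = m
    · have : {x | (x, j) ∈ B ∩ {p : X × ℕ | p.2 = (m : ℕ)}} = {x | (x, j) ∈ B} := by
        ext x; simp [hj]
      rw [this]; exact h1 j
    · have : {x | (x, j) ∈ B ∩ {p : X × ℕ | p.2 = (m : ℕ)}} = ∅ := by
        ext x; simp [hj]
      rw [this]; exact 𝒜.empty_mem
  · intro i j hij
    rw [Set.disjoint_left]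
    rintro p ⟨_, h1⟩ ⟨_, h2⟩
    exact hij (Fin.ext (h1.symm.trans h2))
  · ext p
    simp only [mem_iUnion, mem_inter_iff, mem_ofPred_eq, exists_and_left, and_iff_left_iff_imp]
    intro hp
    exact ⟨⟨p.2, hk p hp⟩, rfl⟩
  · intro i j hij
    rw [Set.disjoint_left]
    rintro q ⟨p, ⟨_, h1⟩, rfl⟩ ⟨p', ⟨_, h2⟩, he⟩
    simp only [mem_ofPred_eq] at h1 h2
    simp only [act, h1, h2, Equiv.swap_apply_left, Prod.mk.injEq] at he
    exact hij (Fin.ext (by omega))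
  · ext ⟨x, j⟩
    simp only [mem_iUnion, mem_image, mem_inter_iff, mem_ofPred_eq, shift]
    constructor
    · rintro ⟨i, p, ⟨h1, h2⟩, h3⟩
      simp only [act, h2, Equiv.swap_apply_left, Prod.mk.injEq, one_smul] at h3
      obtain ⟨rfl, rfl⟩ := h3
      refine ⟨by omega, ?_⟩
      have : (p.1, (i : ℕ) + n - n) = p := by
        rw [Nat.add_sub_cancel, ← h2]
      rw [this]
      exact h1
    · rintro ⟨h1, h2⟩
      refine ⟨⟨j - n, hk _ h2⟩, (x, j - n), ⟨h2, rfl⟩, ?_⟩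
      simp only [act, Equiv.swap_apply_left, one_smul, Prod.mk.injEq, true_and]
      omega

/-! ### The type semigroup -/

/-- The equivalence relation `∼` on `𝒜*`. -/
def InvAlg.setoid (𝒜 : InvAlg G X) : Setoid 𝒜.star where
  r A B := 𝒜.Equidec (A : Set (X × ℕ)) B
  iseqv := ⟨fun A => Equidec.refl 𝒜 A.2, fun h => Equidec.symm 𝒜 h,
    fun h h' => Equidec.trans 𝒜 h h'⟩

/-- The set `𝒮(𝒜)` of types: the equivalence classes of `∼` on `𝒜*`. -/
def InvAlg.TypeSemigroup (𝒜 : InvAlg G X) : Type := Quotient 𝒜.setoid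

/-- The number of levels of `A`: the least `n` such that `A` lives on the levels below `n`. -/
noncomputable def numLevels (A : Set (X × ℕ)) : ℕ := sInf {n | ∀ p ∈ A, p.2 < n}

theorem numLevels_spec (𝒜 : InvAlg G X) {A : Set (X × ℕ)} (hA : A ∈ 𝒜.star) :
    ∀ p ∈ A, p.2 < numLevels A :=
  Nat.sInf_mem (s := {n | ∀ p ∈ A, p.2 < n}) ((mem_star_iff 𝒜 A).1 hA).2

theorem disjoint_shift (𝒜 : InvAlg G X) {A : Set (X × ℕ)} (hA : A ∈ 𝒜.star) (B : Set (X × ℕ)) :
    Disjoint A (shift (numLevels A) B) := by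
  rw [Set.disjoint_left]
  rintro p hp ⟨h1, _⟩
  exact absurd (numLevels_spec 𝒜 hA p hp) (by omega)

/-- The sum of representatives: `A ∪ B'`, where `B'` is obtained from `B` by shifting all levels
upward so that they are disjoint from the levels of `A`. -/
noncomputable def InvAlg.addRep (𝒜 : InvAlg G X) (A B : 𝒜.star) : 𝒜.star :=
  ⟨(A : Set (X × ℕ)) ∪ shift (numLevels (A : Set (X × ℕ))) B,
    star_union 𝒜 A.2 (star_shift 𝒜 B.2 _)⟩

theorem addRep_congr (𝒜 : InvAlg G X) (A A' : 𝒜.star) (hA : 𝒜.setoid.r A A')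
    (B B' : 𝒜.star) (hB : 𝒜.setoid.r B B') :
    𝒜.setoid.r (𝒜.addRep A B) (𝒜.addRep A' B') := by
  refine Equidec.union 𝒜 hA ?_ (disjoint_shift 𝒜 A.2 _) (disjoint_shift 𝒜 A'.2 _)
  exact Equidec.trans 𝒜 (Equidec.symm 𝒜 (equidec_shift 𝒜 B.2 _))
    (Equidec.trans 𝒜 hB (equidec_shift 𝒜 B'.2 _))

noncomputable instance (𝒜 : InvAlg G X) : Add 𝒜.TypeSemigroup where
  add := Quotient.map₂ 𝒜.addRep (fun A A' hA B B' hB => addRep_congr 𝒜 A A' hA B B' hB)

instance (𝒜 : InvAlg G X) : Zero 𝒜.TypeSemigroup where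
  zero := Quotient.mk 𝒜.setoid ⟨∅, star_empty 𝒜⟩

/-- The type of a set in `𝒜*`. -/
def InvAlg.type (𝒜 : InvAlg G X) (A : Set (X × ℕ)) (hA : A ∈ 𝒜.star) : 𝒜.TypeSemigroup :=
  Quotient.mk 𝒜.setoid ⟨A, hA⟩

theorem type_eq_iff (𝒜 : InvAlg G X) {A B : Set (X × ℕ)} (hA : A ∈ 𝒜.star) (hB : B ∈ 𝒜.star) :
    𝒜.type A hA = 𝒜.type B hB ↔ 𝒜.Equidec A B :=
  ⟨fun h => Quotient.exact h, fun h => Quotient.sound h⟩

theorem type_add (𝒜 : InvAlg G X) {A B : Set (X × ℕ)} (hA : A ∈ 𝒜.star) (hB : B ∈ 𝒜.star)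
    (hd : Disjoint A B) :
    𝒜.type A hA + 𝒜.type B hB = 𝒜.type (A ∪ B) (star_union 𝒜 hA hB) := by
  refine Quotient.sound ?_
  exact Equidec.union 𝒜 (Equidec.refl 𝒜 hA) (Equidec.symm 𝒜 (equidec_shift 𝒜 hB _))
    (disjoint_shift 𝒜 hA _) hd

theorem type_shift (𝒜 : InvAlg G X) {B : Set (X × ℕ)} (hB : B ∈ 𝒜.star) (n : ℕ) :
    𝒜.type B hB = 𝒜.type (shift n B) (star_shift 𝒜 hB n) :=
  (type_eq_iff 𝒜 _ _).2 (equidec_shift 𝒜 hB n)

theorem exists_type (𝒜 : InvAlg G X) (a : 𝒜.TypeSemigroup) :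
    ∃ (A : Set (X × ℕ)) (hA : A ∈ 𝒜.star), 𝒜.type A hA = a := by
  induction a using Quotient.inductionOn with
  | h A => exact ⟨A.1, A.2, rfl⟩

/-- a representative on high levels -/
theorem exists_type_ge (𝒜 : InvAlg G X) (a : 𝒜.TypeSemigroup) (n : ℕ) :
    ∃ (A : Set (X × ℕ)) (hA : A ∈ 𝒜.star), 𝒜.type A hA = a ∧ ∀ p ∈ A, n ≤ p.2 := by
  obtain ⟨A, hA, rfl⟩ := exists_type 𝒜 a
  exact ⟨shift n A, star_shift 𝒜 hA n, (type_shift 𝒜 hA n).symm, fun p hp => hp.1⟩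

theorem type_congr (𝒜 : InvAlg G X) {A B : Set (X × ℕ)} (hA : A ∈ 𝒜.star) (hB : B ∈ 𝒜.star)
    (h : A = B) : 𝒜.type A hA = 𝒜.type B hB := by subst h; rfl

/-- The type semigroup is a commutative monoid with zero the type of the empty set. -/
noncomputable instance (𝒜 : InvAlg G X) : AddCommMonoid 𝒜.TypeSemigroup where
  add_assoc a b c := by
    obtain ⟨A, hA, rfl⟩ := exists_type 𝒜 a
    obtain ⟨n, hn⟩ := ((mem_star_iff 𝒜 A).1 hA).2
    obtain ⟨B, hB, rfl, hBn⟩ := exists_type_ge 𝒜 b n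
    obtain ⟨m, hm⟩ := ((mem_star_iff 𝒜 B).1 hB).2
    obtain ⟨C, hC, rfl, hCn⟩ := exists_type_ge 𝒜 c (max n m)
    have dAB : Disjoint A B := by
      rw [Set.disjoint_left]
      intro p h1 h2
      have := hn p h1; have := hBn p h2; omega
    have dAC : Disjoint A C := by
      rw [Set.disjoint_left]
      intro p h1 h2
      have := hn p h1; have := hCn p h2; omega
    have dBC : Disjoint B C := by
      rw [Set.disjoint_left]
      intro p h1 h2
      have := hm p h1; have := hCn p h2; omega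
    rw [type_add 𝒜 hA hB dAB, type_add 𝒜 _ hC (Disjoint.union_left dAC dBC),
      type_add 𝒜 hB hC dBC, type_add 𝒜 hA _ (Disjoint.union_right dAB dAC)]
    exact type_congr 𝒜 _ _ (union_assoc A B C)
  zero_add a := by
    obtain ⟨A, hA, rfl⟩ := exists_type 𝒜 a
    exact (type_add 𝒜 (star_empty 𝒜) hA (empty_disjoint A)).trans
      (type_congr 𝒜 _ _ (empty_union A))
  add_zero a := by
    obtain ⟨A, hA, rfl⟩ := exists_type 𝒜 a
    exact (type_add 𝒜 hA (star_empty 𝒜) (disjoint_empty A)).trans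
      (type_congr 𝒜 _ _ (union_empty A))
  add_comm a b := by
    obtain ⟨A, hA, rfl⟩ := exists_type 𝒜 a
    obtain ⟨n, hn⟩ := ((mem_star_iff 𝒜 A).1 hA).2
    obtain ⟨B, hB, rfl, hBn⟩ := exists_type_ge 𝒜 b n
    have dAB : Disjoint A B := by
      rw [Set.disjoint_left]
      intro p h1 h2
      have := hn p h1; have := hBn p h2; omega
    rw [type_add 𝒜 hA hB dAB, type_add 𝒜 hB hA dAB.symm]
    exact type_congr 𝒜 _ _ (union_comm A B)
  nsmul := nsmulRec

/-- The cancellation law: `n α = n β` implies `α = β` for all `n ≥ 1`. -/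
def InvAlg.CancellationLaw (𝒜 : InvAlg G X) : Prop :=
  ∀ n : ℕ, 1 ≤ n → ∀ α β : 𝒜.TypeSemigroup, n • α = n • β → α = β

end Pool.Agent.TH26.Canc
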