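import Mathlib
import Pool.Agent.TH26.Canc.Defs

/-!
# The infinite dihedral group acting on the circle by reflections
-/

set_option autoImplicit false

open Set MeasureTheory Filter

namespace Pool.Agent.TH26.Canc

noncomputable section

/-- The rotation angle `√2`. -/
def al : UnitAddCircle := ((Real.sqrt 2 : ℝ) : UnitAddCircle)

theorem addOrderOf_al : addOrderOf al = 0 := by
  rw [← AddCircle.denseRange_zsmul_iff, al, AddCircle.denseRange_zsmul_coe_iff, div_one]
  exact irrational_sqrt_two

/-- The points of the circle that are not fixed by any of the reflections `x ↦ k √2 - x`. -/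
def Good (x : UnitAddCircle) : Prop := ∀ k : ℤ, x + x ≠ k • al

/-- The set acted on: all but countably many points of the circle `ℝ/ℤ`. -/
abbrev Pt : Type := {x : UnitAddCircle // Good x}

theorem good_add {x : UnitAddCircle} (hx : Good x) (i : ℤ) : Good (x + i • al) := by
  intro k h
  refine hx (k - 2 * i) ?_
  have : x + x = (x + i • al + (x + i • al)) - (2 * i) • al := by
    rw [mul_smul, two_smul]; abel
  rw [this, h, ← sub_smul]

theorem good_sub {x : UnitAddCircle} (hx : Good x) (i : ℤ) : Good (-(i • al) - x) := by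
  intro k h
  refine hx (-k - 2 * i) ?_
  have : x + x = -(-(i • al) - x + (-(i • al) - x)) - (2 * i) • al := by
    rw [mul_smul, two_smul]; abel
  rw [this, h, ← neg_smul, ← sub_smul]

/-- an integer from an element of `ZMod 0` -/
def toZ (i : ZMod 0) : ℤ := i

theorem toZ_add (i j : ZMod 0) : toZ (i + j) = toZ i + toZ j := rfl
theorem toZ_sub (i j : ZMod 0) : toZ (i - j) = toZ i - toZ j := rfl
theorem toZ_zero : toZ 0 = 0 := rfl
theorem toZ_one : toZ 1 = 1 := rfl

/-- The action of an element of the infinite dihedral group: `r i` is the rotation by `i √2` and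
`sr i` is the reflection `x ↦ -i √2 - x`. -/
def dact : DihedralGroup 0 → Pt → Pt
  | DihedralGroup.r i, x => ⟨x.1 + toZ i • al, good_add x.2 _⟩
  | DihedralGroup.sr i, x => ⟨-(toZ i • al) - x.1, good_sub x.2 _⟩

instance : MulAction (DihedralGroup 0) Pt where
  smul := dact
  one_smul x := by
    show dact (DihedralGroup.r 0) x = x
    apply Subtype.ext
    simp [dact, toZ_zero]
  mul_smul a b x := by
    show dact (a * b) x = dact a (dact b x)
    apply Subtype.ext
    rcases a with i | i <;> rcases b with j | j
    · rw [DihedralGroup.r_mul_r]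
      simp only [dact, toZ_add, add_smul]
      abel
    · rw [DihedralGroup.r_mul_sr]
      simp only [dact, toZ_sub, sub_smul]
      abel
    · rw [DihedralGroup.sr_mul_r]
      simp only [dact, toZ_add, add_smul]
      abel
    · rw [DihedralGroup.sr_mul_sr]
      simp only [dact, toZ_sub, sub_smul]
      abel

theorem r_smul (i : ZMod 0) (x : Pt) :
    ((DihedralGroup.r i • x : Pt) : UnitAddCircle) = x.1 + toZ i • al := rfl

theorem sr_smul (i : ZMod 0) (x : Pt) :
    ((DihedralGroup.sr i • x : Pt) : UnitAddCircle) = -(toZ i • al) - x.1 := rfl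

theorem measurable_smul' (g : DihedralGroup 0) : Measurable (fun x : Pt => g • x) := by
  rcases g with i | i
  · exact (measurable_subtype_coe.add_const _).subtype_mk
  · exact (measurable_subtype_coe.const_sub _).subtype_mk

/-- The algebra of Borel subsets. -/
def borelAlg : InvAlg (DihedralGroup 0) Pt where
  sets := {A | MeasurableSet A}
  empty_mem := by rw [mem_ofPred_eq]; exact MeasurableSet.empty
  univ_mem := by rw [mem_ofPred_eq]; exact MeasurableSet.univ
  union_mem A hA B hB := by rw [mem_ofPred_eq] at *; exact hA.union hB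
  inter_mem A hA B hB := by rw [mem_ofPred_eq] at *; exact hA.inter hB
  compl_mem A hA := by rw [mem_ofPred_eq] at *; exact hA.compl
  smul_mem g A hA := by
    rw [mem_ofPred_eq] at *
    have : (fun x : Pt => g • x) '' A = (fun x : Pt => g⁻¹ • x) ⁻¹' A := by
      ext x
      constructor
      · rintro ⟨y, hy, rfl⟩
        simpa using hy
      · intro hx
        exact ⟨_, hx, by simp⟩
    rw [this]
    exact measurable_smul' _ hA

/-- `f` is a sum of coboundaries for the two reflections. -/
def Cob (f : Pt → ℤ) : Prop :=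
  ∃ u v : Pt → ℤ, Measurable u ∧ Measurable v ∧
    ∀ x, f x = (u x - u (DihedralGroup.sr (0 : ZMod 0) • x)) +
      (v x - v (DihedralGroup.sr (1 : ZMod 0) • x))

theorem Cob.add {f g : Pt → ℤ} (hf : Cob f) (hg : Cob g) : Cob (fun x => f x + g x) := by
  obtain ⟨u, v, hu, hv, h⟩ := hf
  obtain ⟨u', v', hu', hv', h'⟩ := hg
  refine ⟨fun x => u x + u' x, fun x => v x + v' x, hu.add hu', hv.add hv', fun x => ?_⟩
  simp only [h, h']; ring

theorem Cob.neg {f : Pt → ℤ} (hf : Cob f) : Cob (fun x => - f x) := by
  obtain ⟨u, v, hu, hv, h⟩ := hf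
  refine ⟨fun x => - u x, fun x => - v x, hu.neg, hv.neg, fun x => ?_⟩
  simp only [h]; ring

theorem Cob.zero : Cob (fun _ => 0) :=
  ⟨fun _ => 0, fun _ => 0, measurable_const, measurable_const, fun _ => by simp⟩

theorem Cob.sum {ι : Type} (s : Finset ι) (f : ι → Pt → ℤ) (h : ∀ i ∈ s, Cob (f i)) :
    Cob (fun x => ∑ i ∈ s, f i x) := by
  classical
  induction s using Finset.induction_on with
  | empty => simpa using Cob.zero
  | insert a s ha ih =>
    have := (h a (Finset.mem_insert_self a s)).add
      (ih fun i hi => h i (Finset.mem_insert_of_mem hi))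
    simpa [Finset.sum_insert ha] using this

/-- The elements `g` for which all `f - f ∘ g` are sums of coboundaries. -/
def cobGrp : Subgroup (DihedralGroup 0) where
  carrier := {g | ∀ f : Pt → ℤ, Measurable f → Cob (fun x => f x - f (g • x))}
  one_mem' f _ := by simpa using Cob.zero
  mul_mem' {a b} ha hb f hf := by
    have h1 := ha f hf
    have h2 := hb (fun x => f (a • x)) (hf.comp (measurable_smul' a))
    have h3 := h1.add h2
    refine (congrArg Cob (funext fun x => ?_)).mp h3
    rw [mul_smul]; ring
  inv_mem' {a} ha f hf := by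
    have h1 := (ha (fun x => f (a⁻¹ • x)) (hf.comp (measurable_smul' _))).neg
    refine (congrArg Cob (funext fun x => ?_)).mp h1
    rw [inv_smul_smul]; ring

theorem cobGrp_sr0 : DihedralGroup.sr (0 : ZMod 0) ∈ cobGrp := by
  intro f hf
  exact ⟨f, fun _ => 0, hf, measurable_const, fun x => by simp⟩

theorem cobGrp_sr1 : DihedralGroup.sr (1 : ZMod 0) ∈ cobGrp := by
  intro f hf
  exact ⟨fun _ => 0, f, measurable_const, hf, fun x => by simp⟩

theorem cobGrp_top (g : DihedralGroup 0) : g ∈ cobGrp := by
  have h1 : DihedralGroup.r (1 : ZMod 0) ∈ cobGrp := by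
    have := cobGrp.mul_mem cobGrp_sr0 cobGrp_sr1
    rwa [DihedralGroup.sr_mul_sr, sub_zero] at this
  have h2 : ∀ n : ℕ, DihedralGroup.r ((n : ℕ) : ZMod 0) ∈ cobGrp := by
    intro n
    rw [← DihedralGroup.r_one_pow]
    exact cobGrp.pow_mem h1 n
  have h3 : ∀ i : ZMod 0, DihedralGroup.r i ∈ cobGrp := by
    intro i
    obtain ⟨n, rfl | rfl⟩ : ∃ n : ℕ, i = (n : ZMod 0) ∨ i = -(n : ZMod 0) := by
      have : ∀ j : ℤ, ∃ n : ℕ, j = (n : ℤ) ∨ j = -(n : ℤ) := fun j => Int.eq_nat_or_neg j
      exact this i
    · exact h2 n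
    · rw [← DihedralGroup.inv_r]
      exact cobGrp.inv_mem (h2 n)
  rcases g with i | i
  · exact h3 i
  · have := cobGrp.mul_mem cobGrp_sr0 (h3 i)
    rwa [DihedralGroup.sr_mul_r, zero_add] at this

/-! ### No measurable solution -/

theorem measurableSet_good : MeasurableSet {x : UnitAddCircle | Good x} := by
  have : {x : UnitAddCircle | Good x} = ⋂ k : ℤ, {x | x + x = k • al}ᶜ := by
    ext x; simp [Good]
  rw [this]
  refine MeasurableSet.iInter fun k => MeasurableSet.compl ?_
  exact (isClosed_eq (continuous_id.add continuous_id) continuous_const).measurableSet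

theorem ae_good : ∀ᵐ x : UnitAddCircle, Good x := by
  rw [show (∀ᵐ x : UnitAddCircle, Good x) ↔
    ∀ᵐ x : UnitAddCircle, ∀ k : ℤ, x + x ≠ k • al from Iff.rfl, ae_all_iff]
  intro k
  have h := (AddCircle.ergodic_nsmul (T := 1) (n := 2) (by norm_num)).toMeasurePreserving
  have h2 : (volume : Measure UnitAddCircle) {k • al} = 0 := by
    rw [← Metric.closedBall_zero, AddCircle.volume_closedBall]
    simp
  have h3 := h.quasiMeasurePreserving.preimage_null h2
  rw [ae_iff]
  convert h3 using 2
  ext x
  simp [two_nsmul]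

/-- There is no measurable integer valued function `m` with `m + m ∘ σ = 1 = m + m ∘ τ`. -/
theorem no_solution (m : Pt → ℤ) (hm : Measurable m)
    (h0 : ∀ x, m x + m (DihedralGroup.sr (0 : ZMod 0) • x) = 1)
    (h1 : ∀ x, m x + m (DihedralGroup.sr (1 : ZMod 0) • x) = 1) : False := by
  classical
  have hinv : ∀ x : Pt, m x = m (DihedralGroup.r (1 : ZMod 0) • x) := by
    intro x
    have e : DihedralGroup.r (1 : ZMod 0) =
        DihedralGroup.sr (0 : ZMod 0) * DihedralGroup.sr (1 : ZMod 0) := by
      rw [DihedralGroup.sr_mul_sr, sub_zero]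
    rw [e, mul_smul]
    have a := h1 x
    have b := h0 (DihedralGroup.sr (1 : ZMod 0) • x)
    rw [add_comm] at b
    exact add_right_cancel (a.trans b.symm)
  let M : UnitAddCircle → ℤ := fun x => if h : Good x then m ⟨x, h⟩ else 0
  have hM : Measurable M := Measurable.dite (s := {x | Good x}) hm measurable_const
    measurableSet_good
  have hMinv : M ∘ (fun x => x + al) = M := by
    funext x
    simp only [Function.comp, M]
    by_cases hx : Good x
    · have hx' : Good (x + al) := by simpa using good_add hx 1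
      rw [dif_pos hx, dif_pos hx', hinv ⟨x, hx⟩]
      congr 1
      apply Subtype.ext
      rw [r_smul, toZ_one, one_smul]
    · have hx' : ¬ Good (x + al) := by
        intro h
        apply hx
        have := good_add h (-1)
        simpa using this
      rw [dif_neg hx, dif_neg hx']
  have hMx : ∀ x (h : Good x), M x = m ⟨x, h⟩ := fun x h => dif_pos h
  clear_value M
  have herg : Ergodic (fun x : UnitAddCircle => x + al) :=
    AddCircle.ergodic_add_right.2 addOrderOf_al
  obtain ⟨c, hc⟩ := herg.toPreErgodic.ae_eq_const_of_ae_eq_comp hM hMinv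
  have hc2 : ∀ᵐ x : UnitAddCircle, M x = c := hc
  have hneg : MeasurePreserving (fun x : UnitAddCircle => -x) volume volume :=
    Measure.measurePreserving_neg volume
  have hc' : ∀ᵐ x : UnitAddCircle, M (-x) = c :=
    hneg.quasiMeasurePreserving.ae (p := fun x => M x = c) hc2
  obtain ⟨x, ⟨hx1, hx2⟩, hx3⟩ := ((hc2.and hc').and ae_good).exists
  have hx4 : Good (-x) := by simpa using good_sub hx3 0
  rw [hMx x hx3] at hx1
  rw [hMx _ hx4] at hx2
  have h5 := h0 ⟨x, hx3⟩
  have h6 : (DihedralGroup.sr (0 : ZMod 0) • (⟨x, hx3⟩ : Pt)) = ⟨-x, hx4⟩ := by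
    apply Subtype.ext
    rw [sr_smul, toZ_zero]
    simp
  rw [h6, hx1, hx2] at h5
  omega

end

end Pool.Agent.TH26.Canc
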