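import Mathlib
import Pool.Agent.TH26.Canc.Circle

/-!
# Failure of the cancellation law
-/

set_option autoImplicit false

open Set MeasureTheory Filter

namespace Pool.Agent.TH26.Canc

section general

variable {G X : Type} [Group G] [MulAction G X]

/-- a member of the algebra, on level zero -/
def lv (A : Set X) : Set (X × ℕ) := A ×ˢ {0}

theorem mem_lv {A : Set X} {x : X} {m : ℕ} : (x, m) ∈ lv A ↔ x ∈ A ∧ m = 0 := by
  simp [lv]

theorem lv_star (𝒜 : InvAlg G X) {A : Set X} (hA : A ∈ 𝒜.sets) : lv A ∈ 𝒜.star := by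
  rw [mem_star_iff]
  refine ⟨fun m => ?_, 1, ?_⟩
  · by_cases hm : m = 0
    · have : {x | (x, m) ∈ lv A} = A := by
        ext x; rw [mem_ofPred_eq, mem_lv]; simp [hm]
      rw [this]; exact hA
    · have : {x | (x, m) ∈ lv A} = ∅ := by
        ext x; rw [mem_ofPred_eq, mem_lv]; simp [hm]
      rw [this]; exact 𝒜.empty_mem
  · rintro ⟨x, m⟩ hp
    rw [mem_lv] at hp
    simp [hp.2]

theorem type_smul (𝒜 : InvAlg G X) {A B : Set X} (hA : A ∈ 𝒜.sets) (hB : B ∈ 𝒜.sets) (g : G)
    (h : (fun x => g • x) '' A = B) :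
    𝒜.type (lv A) (lv_star 𝒜 hA) = 𝒜.type (lv B) (lv_star 𝒜 hB) := by
  rw [type_eq_iff]
  refine equidec_of_fintype 𝒜 (ι := Unit) (fun _ => lv A) (fun _ => (g, 1))
    (fun _ => lv_star 𝒜 hA) ?_ ?_ ?_ ?_
  · intro i j hij; exact absurd (Subsingleton.elim i j) hij
  · exact iUnion_const _
  · intro i j hij; exact absurd (Subsingleton.elim i j) hij
  · refine (iUnion_const _).trans ?_
    ext ⟨x, m⟩
    rw [mem_lv, ← h]
    constructor
    · rintro ⟨⟨y, k⟩, hy, he⟩
      rw [mem_lv] at hy
      simp only [act, Equiv.Perm.coe_one, id_eq, Prod.mk.injEq] at he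
      obtain ⟨rfl, rfl⟩ := he
      exact ⟨⟨y, hy.1, rfl⟩, hy.2⟩
    · rintro ⟨⟨y, hy, rfl⟩, rfl⟩
      exact ⟨(y, 0), mem_lv.2 ⟨hy, rfl⟩, by simp [act]⟩

theorem two_nsmul_type (𝒜 : InvAlg G X) {A : Set X} (hA : A ∈ 𝒜.sets) (g : G)
    (h : (fun x => g • x) '' A = Aᶜ) :
    2 • 𝒜.type (lv A) (lv_star 𝒜 hA) = 𝒜.type (lv univ) (lv_star 𝒜 𝒜.univ_mem) := by
  have h1 := type_smul 𝒜 hA (𝒜.compl_mem _ hA) g h
  rw [two_nsmul]
  nth_rewrite 2 [h1]
  rw [type_add]
  · refine type_congr 𝒜 _ _ ?_
    ext ⟨x, m⟩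
    simp only [mem_union, mem_lv, mem_compl_iff, mem_univ, true_and]
    tauto
  · rw [Set.disjoint_left]
    rintro ⟨x, m⟩ h2 h3
    rw [mem_lv] at h2 h3
    exact h3.1 h2.1

end general

noncomputable section

/-- the imaginary part of `exp (2 π i x)` -/
def sn (x : UnitAddCircle) : ℝ := (AddCircle.toCircle x : ℂ).im

theorem sn_neg (x : UnitAddCircle) : sn (-x) = - sn x := by
  rw [sn, AddCircle.toCircle_neg, Circle.coe_inv_eq_conj, Complex.conj_im, sn]

theorem continuous_sn : Continuous sn :=
  Complex.continuous_im.comp (continuous_subtype_val.comp AddCircle.continuous_toCircle)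

theorem add_self_of_sn {x : UnitAddCircle} (h : sn x = 0) : x + x = 0 := by
  apply AddCircle.injective_toCircle (T := 1) one_ne_zero
  rw [AddCircle.toCircle_add, AddCircle.toCircle_zero]
  apply Circle.ext
  rw [Circle.coe_mul, Circle.coe_one]
  have h1 : (starRingEnd ℂ) (AddCircle.toCircle x : ℂ) = AddCircle.toCircle x := by
    apply Complex.ext
    · simp
    · rw [Complex.conj_im]
      have : (AddCircle.toCircle x : ℂ).im = 0 := h
      rw [this]; simp
  nth_rewrite 2 [← h1]
  rw [Complex.mul_conj, Circle.normSq_coe]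
  simp

/-- the half circle of the points `x` with `Im exp (2 π i (x - b)) > 0` -/
def half (b : UnitAddCircle) : Set Pt := {x | 0 < sn (x.1 - b)}

theorem measurableSet_half (b : UnitAddCircle) : MeasurableSet (half b) := by
  have : Measurable (fun x : Pt => sn (x.1 - b)) :=
    (continuous_sn.comp (continuous_subtype_val.sub continuous_const)).measurable
  exact measurableSet_lt measurable_const this

theorem half_mem (b : UnitAddCircle) : half b ∈ borelAlg.sets := measurableSet_half b

theorem half_compl (b : UnitAddCircle) (i : ZMod 0) (hb : b + b = -(toZ i • al)) :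
    (fun x : Pt => DihedralGroup.sr i • x) '' half b = (half b)ᶜ := by
  have key : ∀ x : Pt, x ∈ half b ↔ DihedralGroup.sr i • x ∉ half b := by
    intro x
    have h1 : (DihedralGroup.sr i • x : Pt).1 - b = -(x.1 - b) := by
      rw [sr_smul, ← hb]; abel
    have h2 : sn (x.1 - b) ≠ 0 := by
      intro h
      have := add_self_of_sn h
      refine x.2 (-(toZ i)) ?_
      rw [neg_smul, ← hb]
      have h3 : x.1 + x.1 = (x.1 - b + (x.1 - b)) + (b + b) := by abel
      rw [h3, this, zero_add]
    simp only [half, mem_ofPred_eq]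
    rw [h1, sn_neg]
    constructor
    · intro h; linarith
    · intro h
      rcases lt_or_gt_of_ne h2 with h3 | h3
      · exact absurd (by linarith) h
      · exact h3
  have hinv : ∀ x : Pt, DihedralGroup.sr i • (DihedralGroup.sr i • x) = x := by
    intro x
    rw [← mul_smul, DihedralGroup.sr_mul_sr, sub_self, ← DihedralGroup.one_def, one_smul]
  ext x
  rw [mem_compl_iff]
  constructor
  · rintro ⟨y, hy, rfl⟩
    exact (key y).1 hy
  · intro hx
    refine ⟨DihedralGroup.sr i • x, ?_, hinv x⟩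
    rw [key, hinv]
    exact hx

/-- half of `-√2` -/
def be : UnitAddCircle := ((-(Real.sqrt 2 / 2) : ℝ) : UnitAddCircle)

theorem be_add : be + be = -(toZ 1 • al) := by
  rw [be, toZ_one, one_smul, al, ← AddCircle.coe_add, ← AddCircle.coe_neg]
  congr 1; ring

open Classical in
/-- integer valued characteristic function -/
def ch (A : Set Pt) (x : Pt) : ℤ := if x ∈ A then 1 else 0

theorem measurable_ch {A : Set Pt} (hA : MeasurableSet A) : Measurable (ch A) := by
  classical
  exact Measurable.ite hA measurable_const measurable_const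

theorem sum_ch {k : ℕ} (p : Fin k → Set Pt) (hp : Pairwise fun i j => Disjoint (p i) (p j))
    (E : Set Pt) (hE : (⋃ i, p i) = E) (x : Pt) : ∑ i, ch (p i) x = ch E x := by
  classical
  by_cases hx : x ∈ E
  · have h1 := hx
    rw [← hE] at h1
    obtain ⟨i, hi⟩ := mem_iUnion.1 h1
    rw [Finset.sum_eq_single i]
    · simp [ch, hi, hx]
    · intro j _ hj
      have : x ∉ p j := fun h => Set.disjoint_left.1 (hp hj) h hi
      simp [ch, this]
    · intro h; exact absurd (Finset.mem_univ i) h
  · have h1 : ∀ i, x ∉ p i := fun i h => hx (hE ▸ mem_iUnion.2 ⟨i, h⟩)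
    simp [ch, h1, hx]

theorem cob_of_equidec {E F : Set Pt} (h : borelAlg.Equidec (lv E) (lv F)) :
    Cob (fun x => ch E x - ch F x) := by
  obtain ⟨k, P, g, hP, hd, hE, hd', hF⟩ := h
  let p : Fin k → Set Pt := fun i => {x | (x, 0) ∈ P i}
  have hpm : ∀ i, MeasurableSet (p i) := fun i => ((mem_star_iff borelAlg (P i)).1 (hP i)).1 0
  have hsub : ∀ i, P i ⊆ lv E := fun i => hE ▸ subset_iUnion P i
  have hsub' : ∀ i, act (g i) '' P i ⊆ lv F := fun i =>
    hF ▸ subset_iUnion (fun i => act (g i) '' P i) i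
  have h1 : ∀ x, ∑ i, ch (p i) x = ch E x := by
    refine sum_ch p ?_ E ?_
    · intro i j hij
      rw [Set.disjoint_left]
      intro x hx hx'
      exact Set.disjoint_left.1 (hd hij) hx hx'
    · ext x
      rw [mem_iUnion]
      constructor
      · rintro ⟨i, hi⟩
        exact (mem_lv.1 (hsub i hi)).1
      · intro hx
        have : (x, 0) ∈ ⋃ i, P i := by rw [hE]; exact mem_lv.2 ⟨hx, rfl⟩
        obtain ⟨i, hi⟩ := mem_iUnion.1 this
        exact ⟨i, hi⟩
  have h2 : ∀ x, ∑ i, ch (p i) ((g i).1⁻¹ • x) = ch F x := by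
    intro x
    have e : ∀ i, ch (p i) ((g i).1⁻¹ • x) = ch {y | (g i).1⁻¹ • y ∈ p i} x := fun i => rfl
    rw [Finset.sum_congr rfl fun i _ => e i]
    refine sum_ch (fun i => {y | (g i).1⁻¹ • y ∈ p i}) ?_ F ?_ x
    · intro i j hij
      rw [Set.disjoint_left]
      intro y hy hy'
      have a1 : act (g i) ((g i).1⁻¹ • y, 0) ∈ act (g i) '' P i := ⟨_, hy, rfl⟩
      have a2 : act (g j) ((g j).1⁻¹ • y, 0) ∈ act (g j) '' P j := ⟨_, hy', rfl⟩
      have b1 := hsub' i a1
      have b2 := hsub' j a2
      have c1 : act (g i) ((g i).1⁻¹ • y, 0) = (y, 0) := by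
        rw [act, mem_lv] at b1
        simp [act, b1.2]
      have c2 : act (g j) ((g j).1⁻¹ • y, 0) = (y, 0) := by
        rw [act, mem_lv] at b2
        simp [act, b2.2]
      rw [c1] at a1
      rw [c2] at a2
      exact Set.disjoint_left.1 (hd' hij) a1 a2
    · ext y
      rw [mem_iUnion]
      constructor
      · rintro ⟨i, hi⟩
        have a1 : act (g i) ((g i).1⁻¹ • y, 0) ∈ act (g i) '' P i := ⟨_, hi, rfl⟩
        have b1 := hsub' i a1
        rw [act, mem_lv] at b1
        simpa using b1.1
      · intro hy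
        have : (y, 0) ∈ ⋃ i, act (g i) '' P i := by rw [hF]; exact mem_lv.2 ⟨hy, rfl⟩
        obtain ⟨i, ⟨z, m⟩, hz, he⟩ := mem_iUnion.1 this
        refine ⟨i, ?_⟩
        have hm := (mem_lv.1 (hsub i hz)).2
        subst hm
        simp only [act, Prod.mk.injEq] at he
        have : (g i).1⁻¹ • y = z := by rw [← he.1, inv_smul_smul]
        rw [mem_ofPred_eq, this]
        exact hz
  have h3 : Cob (fun x => ∑ i, (ch (p i) x - ch (p i) ((g i).1⁻¹ • x))) :=
    Cob.sum _ _ fun i _ => cobGrp_top (g i).1⁻¹ (ch (p i)) (measurable_ch (hpm i))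
  refine (congrArg Cob (funext fun x => ?_)).mp h3
  rw [Finset.sum_sub_distrib, h1, h2]

theorem not_equidec : ¬ borelAlg.Equidec (lv (half 0)) (lv (half be)) := by
  intro h
  obtain ⟨u, v, hu, hv, huv⟩ := cob_of_equidec h
  have c0 := half_compl 0 0 (by rw [toZ_zero]; simp)
  have c1 := half_compl be 1 be_add
  have inv0 : ∀ (i : ZMod 0) (x : Pt), DihedralGroup.sr i • (DihedralGroup.sr i • x) = x := by
    intro i x
    rw [← mul_smul, DihedralGroup.sr_mul_sr, sub_self, ← DihedralGroup.one_def, one_smul]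
  have hch : ∀ (b : UnitAddCircle) (i : ZMod 0),
      (fun x : Pt => DihedralGroup.sr i • x) '' half b = (half b)ᶜ →
      ∀ x, ch (half b) x + ch (half b) (DihedralGroup.sr i • x) = 1 := by
    intro b i hbi x
    by_cases hx : x ∈ half b
    · have h2 : DihedralGroup.sr i • x ∈ (half b)ᶜ := by rw [← hbi]; exact ⟨x, hx, rfl⟩
      have h3 : DihedralGroup.sr i • x ∉ half b := h2
      simp [ch, hx, h3]
    · have h2 : x ∈ (half b)ᶜ := hx
      rw [← hbi] at h2
      obtain ⟨y, hy, rfl⟩ := h2
      have h3 : (DihedralGroup.sr i • y) ∉ half b := hx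
      simp only [inv0]
      simp [ch, hy, h3]
  have k0 := hch 0 0 c0
  have k1 := hch be 1 c1
  refine no_solution (fun x => ch (half 0) x - u x + u (DihedralGroup.sr (0 : ZMod 0) • x))
    (((measurable_ch (measurableSet_half 0)).sub hu).add (hu.comp (measurable_smul' _))) ?_ ?_
  · intro x
    have a := k0 x
    simp only [inv0]
    generalize ch (half 0) x = a1 at *
    generalize ch (half 0) (DihedralGroup.sr (0 : ZMod 0) • x) = a2 at *
    generalize u x = a3
    generalize u (DihedralGroup.sr (0 : ZMod 0) • x) = a4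
    linarith
  · intro x
    have e : ∀ y, ch (half 0) y - u y + u (DihedralGroup.sr (0 : ZMod 0) • y) =
        ch (half be) y + v y - v (DihedralGroup.sr (1 : ZMod 0) • y) := by
      intro y
      have : ch (half 0) y - ch (half be) y = (u y - u (DihedralGroup.sr (0 : ZMod 0) • y)) +
        (v y - v (DihedralGroup.sr (1 : ZMod 0) • y)) := huv y
      generalize ch (half 0) y = a1 at *
      generalize ch (half be) y = a2 at *
      generalize u y = a3 at *
      generalize u (DihedralGroup.sr (0 : ZMod 0) • y) = a4 at *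
      generalize v y = a5 at *
      generalize v (DihedralGroup.sr (1 : ZMod 0) • y) = a6 at *
      linarith
    simp only [e, inv0]
    have a := k1 x
    generalize ch (half be) x = a1 at *
    generalize ch (half be) (DihedralGroup.sr (1 : ZMod 0) • x) = a2 at *
    generalize v x = a3
    generalize v (DihedralGroup.sr (1 : ZMod 0) • x) = a4
    linarith

theorem not_cancellation : ¬ borelAlg.CancellationLaw := by
  intro h
  have h1 := h 2 (by norm_num) (borelAlg.type (lv (half 0)) (lv_star _ (half_mem 0)))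
    (borelAlg.type (lv (half be)) (lv_star _ (half_mem be))) (by
      rw [two_nsmul_type borelAlg (half_mem 0) (DihedralGroup.sr 0)
          (half_compl 0 0 (by rw [toZ_zero]; simp)),
        two_nsmul_type borelAlg (half_mem be) (DihedralGroup.sr 1) (half_compl be 1 be_add)])
  exact not_equidec ((type_eq_iff _ _ _).1 h1)

end

end Pool.Agent.TH26.Canc
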