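import Mathlib
import Pool.Agent.TH26.Canc.Main

/-!
# There are sets that are not Borel
-/

set_option autoImplicit false

open Set MeasureTheory Filter

namespace Pool.Agent.TH26.Canc

noncomputable section

theorem sr_smul_ne (i : ZMod 0) (x : Pt) : DihedralGroup.sr i • x ≠ x := by
  intro h
  have h1 := congrArg Subtype.val h
  rw [sr_smul] at h1
  refine x.2 (-(toZ i)) ?_
  rw [neg_smul, ← h1]
  nth_rewrite 2 [← h1]
  abel

theorem r_smul_ne {i : ZMod 0} (hi : i ≠ 0) (x : Pt) : DihedralGroup.r i • x ≠ x := by
  intro h
  have h1 := congrArg Subtype.val h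
  rw [r_smul] at h1
  have h2 : toZ i • al = 0 := by simpa using h1
  have h3 : addOrderOf al ∣ (toZ i).natAbs := by
    rw [addOrderOf_dvd_iff_nsmul_eq_zero]
    rcases Int.natAbs_eq (toZ i) with h | h
    · rw [h] at h2; simpa using h2
    · rw [h, neg_smul, neg_eq_zero] at h2; simpa using h2
  rw [addOrderOf_al, zero_dvd_iff, Int.natAbs_eq_zero] at h3
  exact hi h3

/-- the action is free -/
theorem smul_ne {g : DihedralGroup 0} (hg : g ≠ 1) (x : Pt) : g • x ≠ x := by
  rcases g with i | i
  · refine r_smul_ne ?_ x
    rintro rfl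
    exact hg rfl
  · exact sr_smul_ne i x

/-- a representative of the orbit -/
def rep (x : Pt) : Pt := Quotient.out (s := MulAction.orbitRel (DihedralGroup 0) Pt)
  (Quotient.mk _ x)

theorem exists_rep (x : Pt) : ∃ g : DihedralGroup 0, x = g • rep x := by
  have h : MulAction.orbitRel (DihedralGroup 0) Pt (rep x) x :=
    Quotient.exact (Quotient.out_eq (s := MulAction.orbitRel (DihedralGroup 0) Pt)
      (Quotient.mk _ x))
  rw [MulAction.orbitRel_apply] at h
  obtain ⟨g, hg⟩ := h
  refine ⟨g⁻¹, ?_⟩
  rw [← hg]
  simp

theorem rep_smul (g : DihedralGroup 0) (x : Pt) : rep (g • x) = rep x := by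
  unfold rep
  congr 1
  apply Quotient.sound
  show MulAction.orbitRel (DihedralGroup 0) Pt (g • x) x
  rw [MulAction.orbitRel_apply]
  exact ⟨g, rfl⟩

theorem exists_not_measurable : ∃ A : Set Pt, ¬ MeasurableSet A := by
  classical
  by_contra hcon
  push Not at hcon
  let m : Pt → ℤ := fun x => if ∃ i : ZMod 0, x = DihedralGroup.r i • rep x then 1 else 0
  have hm : Measurable m := fun s _ => hcon _
  have hmain : ∀ (j : ZMod 0) (x : Pt), m x + m (DihedralGroup.sr j • x) = 1 := by
    intro j x
    simp only [m, rep_smul]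
    obtain ⟨g, hg⟩ := exists_rep x
    rcases g with i | i
    · have h1 : ∃ i : ZMod 0, x = DihedralGroup.r i • rep x := ⟨i, hg⟩
      have h2 : ¬ ∃ k : ZMod 0, DihedralGroup.sr j • x = DihedralGroup.r k • rep x := by
        rintro ⟨k, hk⟩
        have h3 : rep x = DihedralGroup.r (-i) • x := by
          nth_rewrite 2 [hg]
          rw [← mul_smul, DihedralGroup.r_mul_r, neg_add_cancel, ← DihedralGroup.one_def,
            one_smul]
        rw [h3, ← mul_smul, DihedralGroup.r_mul_r] at hk
        have h4 : DihedralGroup.sr (j + (k + -i)) • x = x := by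
          have := congrArg (fun y => DihedralGroup.r (-(k + -i)) • y) hk
          simp only [← mul_smul, DihedralGroup.r_mul_r, DihedralGroup.r_mul_sr, neg_add_cancel,
            ← DihedralGroup.one_def, one_smul, sub_neg_eq_add] at this
          exact this
        exact sr_smul_ne _ _ h4
      rw [if_pos h1, if_neg h2]
      norm_num
    · have h1 : ¬ ∃ k : ZMod 0, x = DihedralGroup.r k • rep x := by
        rintro ⟨k, hk⟩
        have h5 : DihedralGroup.sr i • rep x = DihedralGroup.r k • rep x := hg.symm.trans hk
        have h4 : DihedralGroup.sr (i + k) • rep x = rep x := by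
          have := congrArg (fun y => DihedralGroup.r (-k) • y) h5
          simp only [← mul_smul, DihedralGroup.r_mul_r, DihedralGroup.r_mul_sr, neg_add_cancel,
            ← DihedralGroup.one_def, one_smul, sub_neg_eq_add] at this
          exact this
        exact sr_smul_ne _ _ h4
      have h2 : ∃ k : ZMod 0, DihedralGroup.sr j • x = DihedralGroup.r k • rep x := by
        refine ⟨i - j, ?_⟩
        nth_rewrite 1 [hg]
        rw [← mul_smul, DihedralGroup.sr_mul_sr]
      rw [if_neg h1, if_pos h2]
      norm_num
  exact no_solution m hm (hmain 0) (hmain 1)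

end

end Pool.Agent.TH26.Canc
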